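import Pool.Agent.Lib.MP_30840b_co_h61.FinB

set_option autoImplicit false
open Classical

namespace Pool.Agent.Results.MP_30840b_co.LargeDegree

/-- There is a number `D₀` such that for every finite loopless multigraph whose maximum degree is
at most `D`, with `D ≥ D₀`, any lists of at least `⌊3D/2⌋` colours on its vertices and edges admit
a proper total colouring from those lists. -/
theorem result : ∃ D₀ : ℕ, ∀ (V E : Type) [Fintype V] [Fintype E] (ends : E → Sym2 V),
      (∀ e, ¬ (ends e).IsDiag) →
      ∀ D : ℕ,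
        (∀ v : V, (Finset.univ.filter (fun e : E => v ∈ ends e)).card ≤ D) →
        D₀ ≤ D →
        ∀ L : V ⊕ E → Finset ℕ,
          (∀ x, 3 * D / 2 ≤ (L x).card) →
          ∃ c : V ⊕ E → ℕ,
            (∀ x, c x ∈ L x) ∧
            (∀ (e : E) (u v : V), ends e = s(u, v) → c (Sum.inl u) ≠ c (Sum.inl v)) ∧
            (∀ (e f : E), e ≠ f → ∀ v : V, v ∈ ends e → v ∈ ends f →
              c (Sum.inr e) ≠ c (Sum.inr f)) ∧
            (∀ (e : E) (v : V), v ∈ ends e → c (Sum.inl v) ≠ c (Sum.inr e)) :=
  Pool.Agent.KH.final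

end Pool.Agent.Results.MP_30840b_co.LargeDegree
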